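import Pool.Agent.H47.Uc2

/-! A one-dimensional cellular automaton that is computation-universal with respect to a Turing
domain but has no universal computer with respect to it. -/

namespace Pool.Agent.Results.MP_8a6a08_lc.NoUniv

open Function

variable {S : Type}

/-- global map of the local rule `f` with neighbourhood `{-r, …, r}` -/
def glob (r : ℕ) (f : (Fin (2 * r + 1) → S) → S) (c : ℤ → S) : ℤ → S :=
  fun x => f fun i => c (x + (i : ℕ) - (r : ℕ))

def Supp (ν : S) (c : ℤ → S) : Set ℤ := {x | c x ≠ ν}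

open Classical in
/-- `c ⊔ c'` (used for disjoint supports only) -/
noncomputable def join (ν : S) (c c' : ℤ → S) : ℤ → S := fun x => if c x ≠ ν then c x else c' x

open Classical in
/-- restriction of `c` to the set `A` of cells -/
noncomputable def res (ν : S) (c : ℤ → S) (A : Set ℤ) : ℤ → S := fun x => if x ∈ A then c x else ν

/-- completely passive: all subconfigurations are fixed by `G` -/
def CPassive (ν : S) (G : (ℤ → S) → ℤ → S) (c : ℤ → S) : Prop :=
  ∀ c' : ℤ → S, (∀ x ∈ Supp ν c', c x = c' x) → G c' = c'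

def Passes (ν : S) (G : (ℤ → S) → ℤ → S) (c c' : ℤ → S) : Prop :=
  ∃ t : ℕ, ∃ x ∈ Supp ν (G^[t] c'), G^[t] (join ν c c') x ≠ G^[t] c' x

def tr (d : ℤ → S) (τ : ℤ) : ℤ → S := fun x => d (x - τ)

/-- `ι : ℕ → T` is a recursive injection and `T` is a Turing domain -/
def TuringDomain (ν : S) (G : (ℤ → S) → ℤ → S) (T : Set (ℤ → S)) (ι : ℕ → ℤ → S) : Prop :=
  (∀ n, ι n ∈ T) ∧ Injective ι ∧
  (∃ (code : S → ℕ) (b : ℕ → ℕ), Injective code ∧ Computable b ∧
    (∀ n, ∀ x ∈ Supp ν (ι n), |x| ≤ b n) ∧ Computable₂ fun n k : ℕ => code (ι n (k - b n))) ∧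
  (∀ d ∈ T, (Supp ν d).Finite ∧ CPassive ν G d) ∧
  ∀ (k : ℕ) (d : Fin k → ℤ → S) (τ : Fin k → ℤ), (∀ i, d i ∈ T) →
    (∀ i j, i ≠ j → Disjoint (Supp ν (tr (d i) (τ i))) (Supp ν (tr (d j) (τ j)))) →
    ∀ u : ℤ → S, (∀ i, ∀ x ∈ Supp ν (tr (d i) (τ i)), u x = tr (d i) (τ i) x) →
      (∀ x ∈ Supp ν u, ∃ i, x ∈ Supp ν (tr (d i) (τ i))) → CPassive ν G u

def Computes (ν : S) (G : (ℤ → S) → ℤ → S) (T : Set (ℤ → S)) (ι : ℕ → ℤ → S) (c : ℤ → S)
    (ψ : ℕ →. ℕ) : Prop :=
  c ∉ T ∧ ∃ α ∈ Supp ν c, ∃ sh : S, sh ≠ ν ∧ ∀ n m, m ∈ ψ n →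
    Disjoint (Supp ν c) (Supp ν (ι n)) ∧ ∃ t : ℕ,
      G^[t] (join ν c (ι n)) α = sh ∧ (∀ t' < t, G^[t'] (join ν c (ι n)) α ≠ sh) ∧
      ¬ Passes ν G (res ν (G^[t] (join ν c (ι n))) (⋃ f ∈ T, Supp ν f)ᶜ)
        (res ν (G^[t] (join ν c (ι n))) (⋃ f ∈ T, Supp ν f)) ∧
      res ν (G^[t] (join ν c (ι n))) (⋃ f ∈ T, Supp ν f) = ι m

def UnivComputer (ν : S) (G : (ℤ → S) → ℤ → S) (T : Set (ℤ → S)) (ι : ℕ → ℤ → S) (c : ℤ → S) :
    Prop :=
  c ∉ T ∧ ∀ ψ : ℕ →. ℕ, Partrec ψ → ∃ d ∈ T, ∃ τ : ℤ,
    Disjoint (Supp ν (tr d τ)) (Supp ν c) ∧ tr d τ ∉ T ∧ Computes ν G T ι (join ν c (tr d τ)) ψ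

open H47.Uc Pool.Agent.H38.CM

theorem cpass {K : ℕ} {w : W} {u : ℤ → St K w} (h : Idle u) : CPassive (nu K w) G u := by
  intro c' hc
  refine G_idle fun x b s e => ?_
  by_cases hx : c' x = nu K w
  · rw [hx] at e; simp [nu] at e
  · exact h x b s (by rw [hc x hx, e])

theorem mem_U {K : ℕ} {w : W} {x : ℤ} :
    x ∈ (⋃ f ∈ Set.range (iota K w), Supp (nu K w) f) ↔ fold x % 2 = 0 := by
  simp only [Set.mem_iUnion, Set.mem_range, exists_prop, exists_exists_eq_and, Supp,
    Set.mem_ofPred_eq, iota_ne]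
  exact ⟨fun ⟨_, h, _⟩ => h, fun h => ⟨fold x, h, by omega⟩⟩

theorem result : ∃ (S : Type) (_ : Finite S) (ν : S) (r : ℕ) (f : (Fin (2 * r + 1) → S) → S)
    (T : Set (ℤ → S)) (ι : ℕ → ℤ → S), f (fun _ => ν) = ν ∧ TuringDomain ν (glob r f) T ι ∧
    (∀ ψ : ℕ →. ℕ, Partrec ψ → ∃ c, (Supp ν c).Finite ∧ Computes ν (glob r f) T ι c ψ) ∧
    ¬ ∃ c, UnivComputer ν (glob r f) T ι c := by
  classical
  obtain ⟨K, w, hw, hu⟩ := exists_univ'
  have := Ctl.finite w
  refine ⟨St K w, inferInstance, nu K w, 3, rule, Set.range (iota K w), iota K w, rule_nu, ?_, ?_, ?_⟩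
  · show TuringDomain _ G _ _
    refine ⟨fun n => ⟨n, rfl⟩, fun n m h => ?_, ?_, ?_, ?_⟩
    · have h1 : fold (2 * n : ℕ) = 2 * n := by have := fold_spec (2 * n : ℕ); omega
      have h2 : fold (2 * m : ℕ) = 2 * m := by have := fold_spec (2 * m : ℕ); omega
      have a := (iota_ne (K := K) (w := w) (n := n) (x := (2 * n : ℕ))).2 (by omega)
      have b := (iota_ne (K := K) (w := w) (n := m) (x := (2 * m : ℕ))).2 (by omega)
      rw [h, iota_ne] at a
      rw [← h, iota_ne] at b
      omega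
    · obtain ⟨code, hc⟩ := Countable.exists_injective_nat (St K w)
      refine ⟨code, fun n => 2 * n + 1, hc, ?_, fun n x hx => ?_, ?_⟩
      · exact (Primrec.succ.comp (Primrec.nat_mul.comp (Primrec.const 2) Primrec.id)).to_comp
      · have := iota_ne.1 hx
        have := fold_spec x
        rw [abs_le]; push_cast; omega
      · have p2 : Primrec fun p : ℕ × ℕ => 2 * p.1 :=
          Primrec.nat_mul.comp (Primrec.const 2) Primrec.fst
        have pm : Primrec fun p : ℕ × ℕ => p.2 % 2 :=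
          Primrec.nat_mod.comp Primrec.snd (Primrec.const 2)
        have : Primrec fun p : ℕ × ℕ => if (p.2 ≤ 2 * p.1 ∧ p.2 % 2 = 0) ∨
            (¬ p.2 ≤ 2 * p.1 ∧ p.2 % 2 = 1 ∧ p.2 ≤ 2 * p.1 + 2 * p.1 + 1)
            then code (mk K w) else code (nu K w) :=
          Primrec.ite (((Primrec.nat_le.comp Primrec.snd p2).and
            (Primrec.eq.comp pm (Primrec.const 0))).or
            ((Primrec.nat_le.comp Primrec.snd p2).not.and ((Primrec.eq.comp pm (Primrec.const 1)).and
              (Primrec.nat_le.comp Primrec.snd (Primrec.succ.comp (Primrec.nat_add.comp p2 p2))))))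
            (Primrec.const _) (Primrec.const _)
        refine this.to_comp.of_eq fun p => ?_
        have := fold_spec ((p.2 : ℤ) - (2 * p.1 + 1 : ℕ))
        simp only [iota]
        split_ifs <;> first | rfl | omega
    · rintro _ ⟨n, rfl⟩
      refine ⟨(Set.finite_Icc (-(2 * n + 1 : ℤ)) (2 * n + 1)).subset fun x hx => ?_,
        cpass (idle_iota n)⟩
      have := iota_ne.1 hx
      have := fold_spec x
      constructor <;> omega
    · intro k d τ hd _ u h1 h2
      refine cpass fun x b s e => ?_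
      by_cases hx : u x = nu K w
      · rw [hx] at e; simp [nu] at e
      · obtain ⟨i, hi⟩ := h2 x hx
        obtain ⟨n, hn⟩ := hd i
        rw [h1 i x hi, ← hn] at e
        exact idle_iota n _ b s e
  · intro ψ hψ
    show ∃ c, _ ∧ Computes _ G _ _ c ψ
    obtain ⟨cd, hcd⟩ := Nat.Partrec.Code.exists_code.1 (Partrec.nat_iff.1 hψ)
    set e := Encodable.encode cd with he
    let v : ℕ → ℕ → ℕ := fun n r => if r = 0 then n else if r = 1 then e else 0
    let c : ℤ → St K w := fun x =>
      if fold x % 2 = 0 then nu K w else cfg (some (entry w), 0, Tp K (v 0)) x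
    have f1 : fold 1 = 1 := rfl
    have c1 : (c 1).1 = some (true, some (entry w)) := by simp [c, f1, cfg]
    refine ⟨c, (Set.finite_Icc (-(2 * e + 2 : ℤ)) (2 * e + 2)).subset fun x hx => ?_, ?_, 1, ?_,
      halt K w, by simp [halt, nu], fun n m hm => ⟨?_, ?_⟩⟩
    · by_contra hn
      apply hx
      have := fold_spec x
      have h0 : 2 * e + 2 ≤ fold x := by
        simp only [Set.mem_Icc] at hn; omega
      simp only [c]
      split_ifs with h
      · rfl
      · have h1 : ¬ x = 1 := by omega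
        have h2 : ¬ x = -2 := by omega
        have h3 : ¬ fold x = 1 := by omega
        have h4 : fold x % 2 = 1 := by omega
        simp only [cfg, nu, h1, h2, h3, Nat.cast_zero, mul_zero, zero_add, sub_zero, if_false,
          decide_false]
        congr 2
        funext i
        have : ¬ fold x / 2 < v 0 i := by simp only [v]; split_ifs <;> omega
        simp [trk, h4, Tp, this]
    · rintro ⟨n, hn⟩
      exact idle_iota n 1 _ _ (hn ▸ c1)
    · intro h
      rw [h] at c1; simp [nu] at c1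
    · refine Set.disjoint_left.2 fun x h1 h2 => h1 ?_
      simp [c, (iota_ne.1 h2).1]
    · have hj : join (nu K w) c (iota K w n) = cfg (some (entry w), 0, Tp K (v n)) := by
        funext x
        by_cases hx : fold x % 2 = 0
        · simp [join, c, hx, cfg_even _ _ hx, v]
        · have e1 : c x = cfg (some (entry w), 0, Tp K (v n)) x := by
            simp only [c, if_neg hx]
            exact cfg_odd _ _ _ (fun r hr => by simp [v, hr]) hx
          have e2 : iota K w n x = nu K w := by simp [iota, hx]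
          simp only [join, e1, e2]
          split_ifs with h
          · rfl
          · exact (not_not.1 h).symm
      obtain ⟨u, h1, h2, h3⟩ := hu e n m (by rw [he, Denumerable.ofNat_encode, hcd]; exact hm)
      obtain ⟨t, g1, g2⟩ := run_G (run_of_ev h1 hw)
      have hr : res (nu K w) (cfg (none, 0, Tp K u)) (⋃ f ∈ Set.range (iota K w), Supp (nu K w) f)
          = iota K w m := by
        funext x
        simp only [res, mem_U]
        split_ifs with hx
        · rw [cfg_even _ _ hx, h2]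
        · simp [iota, hx]
      refine ⟨t, ?_, fun t' ht => ?_, ?_, ?_⟩
      · rw [hj, g1, cfg_halt u h3]
      · obtain ⟨s, p, tp, g⟩ := g2 t' ht
        rw [hj, g]; exact cfg_not_halt s p tp
      · rw [hj, g1]
        rintro ⟨t', x, hx, hne⟩
        have hid : Idle (join (nu K w) (res (nu K w) (cfg (none, 0, Tp K u))
            (⋃ f ∈ Set.range (iota K w), Supp (nu K w) f)ᶜ) (iota K w m)) := by
          intro y b s
          simp only [join, res]
          split_ifs
          all_goals first | exact idle_cfg _ _ y b s | exact idle_iota _ y b s | simp [nu]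
        rw [hr, iterate_fixed (G_idle (idle_iota m))] at hx hne
        rw [iterate_fixed (G_idle hid)] at hne
        apply hne
        have : x ∈ (⋃ f ∈ Set.range (iota K w), Supp (nu K w) f) := mem_U.2 (iota_ne.1 hx).1
        simp only [join, res, Set.mem_compl_iff, this, not_true, if_false, ne_eq]
      · rw [hj, g1, hr]
  · rintro ⟨c, -, hc⟩
    obtain ⟨_, ⟨k, rfl⟩, τ, h1, -, -, α, -, sh, -, h2⟩ := hc (fun n => Part.some n) Partrec.some
    have key : ∀ x, iota K w k (x - τ) ≠ nu K w → ¬ fold x % 2 = 0 := by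
      intro x hx he
      have hd := Set.disjoint_left.1 (h2 (fold x) (fold x) (by simp)).1
      have hd' := Set.disjoint_left.1 h1
      have hcx : c x = nu K w := not_not.1 (@hd' x hx)
      refine @hd x ?_ (iota_ne.2 ⟨he, by omega⟩)
      simpa [Supp, join, hcx, tr] using hx
    have a := key τ (iota_ne.2 (by simp [fold]))
    have b := key (τ - 1) (iota_ne.2 (by simp [fold]))
    have := fold_spec τ
    have := fold_spec (τ - 1)
    omega

end Pool.Agent.Results.MP_8a6a08_lc.NoUniv
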